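import Pool.Agent.H481R3.CGD

/-!
Commutants of bounded strongly continuous representations of compact abelian groups on Banach spaces:
every noninvertible element is a left or right topological divisor of zero.
-/

set_option autoImplicit false
set_option linter.unusedSectionVars false
set_option linter.overlappingInstances false

open MeasureTheory Filter Topology
open Pool.Agent.H481R3.CG (mulL continuous_mulL integrable_cont ch ch_apply ch_mul TP_dense)

namespace Pool.Agent.Y251.RP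

universe u v w

/-- a bounded strongly continuous representation -/
structure BRep (G : Type u) [CommGroup G] [TopologicalSpace G] (X : Type v) [NormedAddCommGroup X]
    [NormedSpace ℂ X] where
  ρ : G →* (X →L[ℂ] X)
  M : ℝ
  bound : ∀ x, ‖ρ x‖ ≤ M
  cont : ∀ v, Continuous fun x => ρ x v

variable {G : Type u} [CommGroup G] [TopologicalSpace G] [IsTopologicalGroup G] [CompactSpace G]
  [T2Space G] [MeasurableSpace G] [BorelSpace G]
variable {X : Type v} [NormedAddCommGroup X] [NormedSpace ℂ X] [CompleteSpace X]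

section
variable (μ : Measure G) [μ.IsHaarMeasure] [IsProbabilityMeasure μ] [μ.Regular] (r : BRep G X)

theorem M_nonneg : 0 ≤ r.M := (norm_nonneg _).trans (r.bound 1)

theorem norm_ρ (x : G) (v : X) : ‖r.ρ x v‖ ≤ r.M * ‖v‖ :=
  (r.ρ x).le_of_opNorm_le (r.bound x) v

theorem ρ_ρ (x y : G) (v : X) : r.ρ x (r.ρ y v) = r.ρ (x * y) v := by
  rw [map_mul]; rfl

theorem ρ_one (v : X) : r.ρ 1 v = v := by
  rw [map_one]; rfl

/-- `Co k v = ∫ k(y) ρ(y) v dy` -/
noncomputable def Co (k : C(G, ℂ)) : X →L[ℂ] X :=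
  LinearMap.mkContinuous
    { toFun := fun g => ∫ y, k y • r.ρ y g ∂μ
      map_add' := fun g h => by
        rw [← integral_add]
        · congr 1
          funext y
          rw [map_add, smul_add]
        · exact integrable_cont μ (k.continuous.smul (r.cont g))
        · exact integrable_cont μ (k.continuous.smul (r.cont h))
      map_smul' := fun c g => by
        rw [RingHom.id_apply, ← integral_smul]
        congr 1
        funext y
        rw [map_smul, smul_comm] }
    (r.M * ∫ y, ‖k y‖ ∂μ) (fun g => by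
      change ‖∫ y, k y • r.ρ y g ∂μ‖ ≤ _
      refine (norm_integral_le_integral_norm _).trans ?_
      have e : r.M * (∫ y, ‖k y‖ ∂μ) * ‖g‖ = ∫ y, ‖k y‖ * (r.M * ‖g‖) ∂μ := by
        rw [integral_mul_const]; ring
      rw [e]
      refine integral_mono (integrable_cont μ (k.continuous.smul (r.cont g))).norm
        (integrable_cont μ (k.continuous.norm.mul continuous_const)) (fun y => ?_)
      change ‖k y • r.ρ y g‖ ≤ ‖k y‖ * (r.M * ‖g‖)
      rw [norm_smul]
      exact mul_le_mul_of_nonneg_left (norm_ρ r y g) (norm_nonneg _))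

theorem Co_apply (k : C(G, ℂ)) (g : X) : Co μ r k g = ∫ y, k y • r.ρ y g ∂μ := rfl

theorem norm_Co_le (k : C(G, ℂ)) : ‖Co μ r k‖ ≤ r.M * ∫ y, ‖k y‖ ∂μ :=
  LinearMap.mkContinuous_norm_le _
    (mul_nonneg (M_nonneg r) (integral_nonneg (fun _ => norm_nonneg _))) _

theorem norm_Co_le' (k : C(G, ℂ)) : ‖Co μ r k‖ ≤ r.M * ‖k‖ := by
  refine (norm_Co_le μ r k).trans (mul_le_mul_of_nonneg_left ?_ (M_nonneg r))
  calc ∫ y, ‖k y‖ ∂μ ≤ ∫ _y : G, ‖k‖ ∂μ := by
        apply integral_mono (integrable_cont μ k.continuous.norm) (integrable_const _)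
        intro y
        exact k.norm_coe_le_norm y
    _ = ‖k‖ := by simp

theorem Co_add (k l : C(G, ℂ)) : Co μ r (k + l) = Co μ r k + Co μ r l := by
  ext1 g
  rw [add_apply, Co_apply, Co_apply, Co_apply, ← integral_add]
  · congr 1
    funext y
    rw [ContinuousMap.add_apply, add_smul]
  · exact integrable_cont μ (k.continuous.smul (r.cont g))
  · exact integrable_cont μ (l.continuous.smul (r.cont g))

theorem Co_smul (c : ℂ) (k : C(G, ℂ)) : Co μ r (c • k) = c • Co μ r k := by
  ext1 g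
  rw [smul_apply, Co_apply, Co_apply, ← integral_smul]
  congr 1
  funext y
  rw [ContinuousMap.smul_apply, smul_assoc]

theorem Co_sub (k l : C(G, ℂ)) : Co μ r (k - l) = Co μ r k - Co μ r l := by
  have : k - l = k + (-1 : ℂ) • l := by
    ext y
    simp [sub_eq_add_neg]
  rw [this, Co_add, Co_smul]
  simp [sub_eq_add_neg]

/-- operators commuting with the representation commute with `Co` -/
theorem comm_Co (T : X →L[ℂ] X) (hT : ∀ x g, T (r.ρ x g) = r.ρ x (T g)) (k : C(G, ℂ)) (g : X) :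
    T (Co μ r k g) = Co μ r k (T g) := by
  rw [Co_apply, Co_apply, ← ContinuousLinearMap.integral_comp_comm]
  · congr 1
    funext y
    rw [map_smul, hT]
  · exact integrable_cont μ (k.continuous.smul (r.cont g))

/-- change of variables -/
theorem ρ_Co (x : G) (k : C(G, ℂ)) (g : X) :
    r.ρ x (Co μ r k g) = Co μ r (k.comp (mulL x⁻¹)) g := by
  rw [Co_apply, Co_apply, ← ContinuousLinearMap.integral_comp_comm]
  · have h := integral_mul_left_eq_self (μ := μ)
      (fun y => (k.comp (mulL x⁻¹)) y • r.ρ y g) x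
    rw [← h]
    congr 1
    funext y
    rw [map_smul, ρ_ρ]
    change _ = k (x⁻¹ * (x * y)) • _
    rw [inv_mul_cancel_left]
  · exact integrable_cont μ (k.continuous.smul (r.cont g))

/-- the eigenspace of a character -/
def eig (χ : G →ₜ* Circle) : Submodule ℂ X where
  carrier := {v | ∀ x, r.ρ x v = ch χ x • v}
  add_mem' := fun {a b} ha hb x => by rw [map_add, ha x, hb x, smul_add]
  zero_mem' := fun x => by rw [map_zero, smul_zero]
  smul_mem' := fun c a ha x => by rw [map_smul, ha x, smul_comm]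

theorem eig_closed (χ : G →ₜ* Circle) : IsClosed (eig r χ : Set X) := by
  have : (eig r χ : Set X) = ⋂ x : G, {v | r.ρ x v = ch χ x • v} := by
    ext v
    simp only [Set.mem_iInter]
    rfl
  rw [this]
  exact isClosed_iInter fun x => isClosed_eq (r.ρ x).continuous (continuous_const.smul continuous_id)

/-- the projection to the eigenspace of `χ` -/
noncomputable def Ei (χ : G →ₜ* Circle) : X →L[ℂ] X := Co μ r (ch χ⁻¹)

theorem ch_inv_inv (χ : G →ₜ* Circle) (x : G) : ch χ⁻¹ x⁻¹ = ch χ x := by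
  rw [ch_apply, ch_apply]
  congr 1
  have : (χ⁻¹ : G →ₜ* Circle) x⁻¹ = (χ x⁻¹)⁻¹ := rfl
  rw [this, map_inv, inv_inv]

theorem ch_inv_mul (χ : G →ₜ* Circle) (x : G) : ch χ⁻¹ x * ch χ x = 1 := by
  rw [ch_apply, ch_apply]
  have : (χ⁻¹ : G →ₜ* Circle) x = (χ x)⁻¹ := rfl
  rw [this, ← Circle.coe_mul, inv_mul_cancel, Circle.coe_one]

theorem Ei_mem (χ : G →ₜ* Circle) (v : X) : Ei μ r χ v ∈ eig r χ := by
  intro x
  unfold Ei
  rw [ρ_Co]
  have h : (ch χ⁻¹).comp (mulL x⁻¹) = ch χ x • ch χ⁻¹ := by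
    ext y
    change ch χ⁻¹ (x⁻¹ * y) = ch χ x * ch χ⁻¹ y
    rw [ch_mul, ch_inv_inv]
  rw [h, Co_smul]
  rfl

theorem Ei_of_mem (χ : G →ₜ* Circle) (v : X) (hv : v ∈ eig r χ) : Ei μ r χ v = v := by
  unfold Ei
  rw [Co_apply]
  have : (fun y => ch χ⁻¹ y • r.ρ y v) = fun _ => v := by
    funext y
    rw [hv y, smul_smul, ch_inv_mul, one_smul]
  rw [this]
  simp

/-- approximation of the identity by trigonometric polynomials -/
theorem approx (v : X) (ε : ℝ) (hε : 0 < ε) :
    ∃ F ∈ Submodule.span ℂ (Set.range (ch : (G →ₜ* Circle) → C(G, ℂ))),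
      ‖Co μ r F v - v‖ ≤ ε + r.M * ε * ‖v‖ ∧ ‖Co μ r F‖ ≤ r.M * (1 + ε) := by
  let U : Set G := {y | ‖r.ρ y v - v‖ < ε}
  have hUo : IsOpen U := isOpen_lt ((r.cont v).sub continuous_const).norm continuous_const
  have h1U : (1 : G) ∈ U := by
    change ‖r.ρ 1 v - v‖ < ε
    rw [ρ_one r v, sub_self, norm_zero]
    exact hε
  obtain ⟨φ, hφ0, hφ1, hφ⟩ := exists_continuous_zero_one_of_isClosed (X := G)
    hUo.isClosed_compl (isClosed_singleton (x := (1 : G)))
    (Set.disjoint_singleton_right.2 (by simpa using h1U))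
  have hφ11 : φ 1 = 1 := hφ1 rfl
  have hφn : ∀ y, 0 ≤ φ y := fun y => (hφ y).1
  have hI : 0 < ∫ y, φ y ∂μ := by
    refine φ.continuous.integral_pos_of_hasCompactSupport_nonneg_nonzero
      (HasCompactSupport.of_compactSpace _) hφn (x := 1) ?_
    rw [hφ11]
    exact one_ne_zero
  set I : ℝ := ∫ y, φ y ∂μ with hIdef
  let k : C(G, ℂ) := ⟨fun y => ((φ y / I : ℝ) : ℂ),
    Complex.continuous_ofReal.comp (φ.continuous.div_const I)⟩
  have hk : ∀ y, k y = ((φ y / I : ℝ) : ℂ) := fun _ => rfl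
  have hknorm : ∀ y, ‖k y‖ = φ y / I := by
    intro y
    rw [hk, Complex.norm_real, Real.norm_eq_abs, abs_of_nonneg (div_nonneg (hφn y) hI.le)]
  have hkint : ∫ y, ‖k y‖ ∂μ = 1 := by
    simp_rw [hknorm]
    rw [integral_div, div_self hI.ne']
  have hkint' : ∫ y, k y ∂μ = 1 := by
    have h0 : ∫ y, k y ∂μ = ((∫ y, φ y / I ∂μ : ℝ) : ℂ) := integral_ofReal
    rw [h0, integral_div, div_self hI.ne', Complex.ofReal_one]
  have hk1 : ‖Co μ r k v - v‖ ≤ ε := by
    have h1 : v = ∫ y, k y • v ∂μ := by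
      rw [integral_smul_const, hkint', one_smul]
    have h2 : Co μ r k v - v = ∫ y, k y • (r.ρ y v - v) ∂μ := by
      conv_lhs => rw [Co_apply]
      conv_lhs => arg 2; rw [h1]
      rw [← integral_sub]
      · congr 1
        funext y
        rw [smul_sub]
      · exact integrable_cont μ (k.continuous.smul (r.cont v))
      · exact integrable_cont μ (k.continuous.smul continuous_const)
    rw [h2]
    refine (norm_integral_le_integral_norm _).trans ?_
    calc ∫ y, ‖k y • (r.ρ y v - v)‖ ∂μ ≤ ∫ y, ‖k y‖ * ε ∂μ := by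
          apply integral_mono
          · exact (integrable_cont μ
              (k.continuous.smul ((r.cont v).sub continuous_const))).norm
          · exact integrable_cont μ (k.continuous.norm.mul continuous_const)
          · intro y
            change ‖k y • (r.ρ y v - v)‖ ≤ ‖k y‖ * ε
            rw [norm_smul]
            by_cases hy : y ∈ U
            · exact mul_le_mul_of_nonneg_left (le_of_lt hy) (norm_nonneg _)
            · have : φ y = 0 := hφ0 hy
              rw [hknorm, this]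
              simp
      _ = ε := by rw [integral_mul_const, hkint, one_mul]
  obtain ⟨F, hF, hkF⟩ := TP_dense μ k ε hε
  have hM := M_nonneg r
  refine ⟨F, hF, ?_, ?_⟩
  · have h1 : Co μ r F v - v = (Co μ r k v - v) - Co μ r (k - F) v := by
      rw [Co_sub]
      change _ = (Co μ r k v - v) - (Co μ r k v - Co μ r F v)
      abel
    rw [h1]
    refine (norm_sub_le _ _).trans (add_le_add hk1 ?_)
    refine ((Co μ r (k - F)).le_opNorm v).trans ?_
    refine mul_le_mul_of_nonneg_right ((norm_Co_le' μ r _).trans ?_) (norm_nonneg _)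
    exact mul_le_mul_of_nonneg_left hkF.le hM
  · have : Co μ r F = Co μ r k - Co μ r (k - F) := by
      rw [Co_sub, sub_sub_cancel]
    rw [this, mul_add]
    refine (norm_sub_le _ _).trans ?_
    refine add_le_add ?_ ?_
    · refine (norm_Co_le μ r k).trans_eq ?_
      rw [hkint]
    · exact (norm_Co_le' μ r _).trans (mul_le_mul_of_nonneg_left hkF.le hM)

/-- the commutant -/
def Comm : Subalgebra ℂ (X →L[ℂ] X) := Subalgebra.centralizer ℂ (Set.range r.ρ)

theorem mem_Comm (T : X →L[ℂ] X) : T ∈ Comm r ↔ ∀ x g, T (r.ρ x g) = r.ρ x (T g) := by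
  unfold Comm
  rw [Subalgebra.mem_centralizer_iff]
  constructor
  · intro h x g
    have := h _ ⟨x, rfl⟩
    exact (DFunLike.congr_fun this g).symm
  · rintro h _ ⟨x, rfl⟩
    ext1 g
    exact (h x g).symm

theorem T_eig (T : X →L[ℂ] X) (hT : T ∈ Comm r) (χ : G →ₜ* Circle) (v : X) (hv : v ∈ eig r χ) :
    T v ∈ eig r χ := by
  intro x
  rw [← (mem_Comm r T).1 hT, hv x, map_smul]

/-- rank one operators in the commutant -/
theorem rank_one_mem (χ : G →ₜ* Circle) (f : X →L[ℂ] ℂ) (v : X) (hv : v ∈ eig r χ) :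
    (f.comp (Ei μ r χ)).smulRight v ∈ Comm r := by
  rw [mem_Comm]
  intro x g
  have h1 : Ei μ r χ (r.ρ x g) = ch χ x • Ei μ r χ g := by
    have h2 : ∀ y g, (r.ρ x) (r.ρ y g) = r.ρ y (r.ρ x g) := fun y g => by
      rw [ρ_ρ, ρ_ρ, mul_comm]
    unfold Ei
    rw [← comm_Co μ r (r.ρ x) h2]
    exact Ei_mem μ r χ g x
  rw [ContinuousLinearMap.smulRight_apply, ContinuousLinearMap.smulRight_apply,
    ContinuousLinearMap.comp_apply, ContinuousLinearMap.comp_apply, h1, map_smul, map_smul, hv x,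
    smul_smul, smul_eq_mul, mul_comm]

section bb
variable (T : X →L[ℂ] X) (hT : T ∈ Comm r) (c : ℝ) (hc : 0 < c)
  (hS : ∀ S ∈ Comm r, c * ‖S‖ ≤ ‖T * S‖) (hS' : ∀ S ∈ Comm r, c * ‖S‖ ≤ ‖S * T‖)
include μ hT hc hS hS'

theorem bb_eig (χ : G →ₜ* Circle) (v : X) (hv : v ∈ eig r χ) : c * ‖v‖ ≤ ‖T v‖ := by
  by_cases h0 : v = 0
  · subst h0; simp
  obtain ⟨f, hf⟩ := SeparatingDual.exists_ne_zero (R := ℂ) h0
  have h1 := hS _ (rank_one_mem μ r χ f v hv)
  have h2 : T * (f.comp (Ei μ r χ)).smulRight v = (f.comp (Ei μ r χ)).smulRight (T v) := by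
    ext1 g
    change T ((f.comp (Ei μ r χ)) g • v) = (f.comp (Ei μ r χ)) g • T v
    rw [map_smul]
  rw [h2, ContinuousLinearMap.norm_smulRight_apply, ContinuousLinearMap.norm_smulRight_apply] at h1
  have h3 : 0 < ‖f.comp (Ei μ r χ)‖ := by
    rw [norm_pos_iff]
    intro h
    apply hf
    have := DFunLike.congr_fun h v
    rw [ContinuousLinearMap.comp_apply, Ei_of_mem μ r χ v hv] at this
    exact this
  have h4 : ‖f.comp (Ei μ r χ)‖ * (c * ‖v‖) ≤ ‖f.comp (Ei μ r χ)‖ * ‖T v‖ := by
    calc _ = c * (‖f.comp (Ei μ r χ)‖ * ‖v‖) := by ring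
      _ ≤ _ := h1
  exact le_of_mul_le_mul_left h4 h3

theorem surj_eig (χ : G →ₜ* Circle) (v : X) (hv : v ∈ eig r χ) : ∃ u ∈ eig r χ, T u = v := by
  have : CompleteSpace (eig r χ) := (eig_closed r χ).completeSpace_coe
  let e : eig r χ →L[ℂ] X := T.comp (eig r χ).subtypeL
  have hanti : AntilipschitzWith (Real.toNNReal c⁻¹) e := by
    apply ContinuousLinearMap.antilipschitz_of_bound
    intro f
    have h := bb_eig μ r T hT c hc hS hS' χ f f.2
    rw [Real.coe_toNNReal _ (inv_nonneg.2 hc.le), inv_mul_eq_div, le_div_iff₀ hc, mul_comm]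
    exact h
  have hcl : IsClosed (Set.range e) := hanti.isClosed_range e.uniformContinuous
  by_contra hcon
  push Not at hcon
  let p : Submodule ℂ X := LinearMap.range (e : eig r χ →ₗ[ℂ] X)
  have hp : IsClosed (p : Set X) := hcl
  have hvp : v ∉ p := by
    rintro ⟨u, hu⟩
    exact hcon u u.2 hu
  obtain ⟨g, hg⟩ := SeparatingDual.exists_ne_zero (R := ℂ) (x := p.mkQ v)
    (by rw [Ne, Submodule.mkQ_apply, Submodule.Quotient.mk_eq_zero]; exact hvp)
  let f : X →L[ℂ] ℂ := g.comp p.mkQL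
  have hf0 : ∀ u ∈ eig r χ, f (T u) = 0 := by
    intro u hu
    change g (p.mkQ (T u)) = 0
    have : p.mkQ (T u) = 0 := by
      rw [Submodule.mkQ_apply, Submodule.Quotient.mk_eq_zero]
      exact ⟨⟨u, hu⟩, rfl⟩
    rw [this, map_zero]
  have h1 := hS' _ (rank_one_mem μ r χ f v hv)
  have h2 : (f.comp (Ei μ r χ)).smulRight v * T = 0 := by
    ext1 w
    change f (Ei μ r χ (T w)) • v = 0
    have h3 : Ei μ r χ (T w) = T (Ei μ r χ w) := (comm_Co μ r T ((mem_Comm r T).1 hT) _ w).symm
    rw [h3, hf0 _ (Ei_mem μ r χ w), zero_smul]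
  rw [h2, norm_zero] at h1
  have h3 : ‖(f.comp (Ei μ r χ)).smulRight v‖ = 0 := by
    have := norm_nonneg ((f.comp (Ei μ r χ)).smulRight v)
    nlinarith
  rw [norm_eq_zero] at h3
  have h4 := DFunLike.congr_fun h3 v
  rw [ContinuousLinearMap.smulRight_apply, ContinuousLinearMap.comp_apply,
    Ei_of_mem μ r χ v hv] at h4
  rcases smul_eq_zero.1 h4 with h5 | h5
  · exact hg h5
  · apply hg
    rw [h5, map_zero, map_zero]

end bb

end

end Pool.Agent.Y251.RP
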