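import Pool.Agent.Y251.RP.Rep

/-!
Commutants of bounded strongly continuous representations of compact abelian groups, part two:
spectral permanence.
-/

set_option autoImplicit false
set_option linter.unusedSectionVars false
set_option linter.overlappingInstances false

open MeasureTheory Filter Topology
open Pool.Agent.H481R3.CG (mulL continuous_mulL integrable_cont ch ch_apply ch_mul TP_dense)

namespace Pool.Agent.Y251.RP

universe u v w

variable {G : Type u} [CommGroup G] [TopologicalSpace G] [IsTopologicalGroup G] [CompactSpace G]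
  [T2Space G] [MeasurableSpace G] [BorelSpace G]
variable {X : Type v} [NormedAddCommGroup X] [NormedSpace ℂ X] [CompleteSpace X]

section
variable (μ : Measure G) [μ.IsHaarMeasure] [IsProbabilityMeasure μ] [μ.Regular] (r : BRep G X)

section bb
variable (T : X →L[ℂ] X) (hT : T ∈ Comm r) (c : ℝ) (hc : 0 < c)
  (hS : ∀ S ∈ Comm r, c * ‖S‖ ≤ ‖T * S‖) (hS' : ∀ S ∈ Comm r, c * ‖S‖ ≤ ‖S * T‖)
include μ hT hc hS hS'

/-- the inverse on an eigenspace, composed with the projection -/
theorem solve_Ei (χ : G →ₜ* Circle) :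
    ∃ S ∈ Comm r, T * S = Ei μ r χ ∧ S * T = Ei μ r χ := by
  have hcs : CompleteSpace (eig r χ) := (eig_closed r χ).completeSpace_coe
  let e : eig r χ →L[ℂ] eig r χ := (T.comp (eig r χ).subtypeL).codRestrict (eig r χ)
    (fun v => T_eig r T hT χ v v.2)
  have he : ∀ v : eig r χ, ((e v : eig r χ) : X) = T v := fun v => rfl
  have hinj : Function.Injective e := by
    rw [injective_iff_map_eq_zero]
    intro v hv
    have h1 := bb_eig μ r T hT c hc hS hS' χ v v.2
    have h2 : T v = 0 := by rw [← he, hv]; rfl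
    rw [h2, norm_zero] at h1
    have h3 : ‖(v : X)‖ = 0 := by
      have := norm_nonneg (v : X)
      nlinarith
    exact Subtype.ext (norm_eq_zero.1 h3)
  have hsur : Function.Surjective e := by
    intro v
    obtain ⟨u, hu, huv⟩ := surj_eig μ r T hT c hc hS hS' χ v v.2
    exact ⟨⟨u, hu⟩, Subtype.ext huv⟩
  let E := ContinuousLinearEquiv.ofBijective e (LinearMap.ker_eq_bot.2 hinj)
    (LinearMap.range_eq_top.2 hsur)
  have h1 : ∀ v, E.symm (e v) = v := fun v =>
    ContinuousLinearEquiv.ofBijective_symm_apply_apply e _ _ v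
  have h2 : ∀ v, e (E.symm v) = v := fun v =>
    ContinuousLinearEquiv.ofBijective_apply_symm_apply e _ _ v
  let P : X →L[ℂ] eig r χ := (Ei μ r χ).codRestrict (eig r χ) (fun v => Ei_mem μ r χ v)
  have hP : ∀ v, ((P v : eig r χ) : X) = Ei μ r χ v := fun v => rfl
  let R : eig r χ →L[ℂ] eig r χ := (E.symm : eig r χ →L[ℂ] eig r χ)
  let S : X →L[ℂ] X := (eig r χ).subtypeL.comp (R.comp P)
  have hSv : ∀ v, S v = ((E.symm (P v) : eig r χ) : X) := fun v => rfl
  have hPT : ∀ v, P (T v) = e (P v) := by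
    intro v
    apply Subtype.ext
    rw [he, hP, hP]
    exact (comm_Co μ r T ((mem_Comm r T).1 hT) _ v).symm
  refine ⟨S, ?_, ?_, ?_⟩
  · rw [mem_Comm]
    intro x g
    have h3 : P (r.ρ x g) = ch χ x • P g := by
      apply Subtype.ext
      have h4 : ∀ y g, (r.ρ x) (r.ρ y g) = r.ρ y (r.ρ x g) := fun y g => by
        rw [ρ_ρ, ρ_ρ, mul_comm]
      have h5 : Ei μ r χ (r.ρ x g) = r.ρ x (Ei μ r χ g) := (comm_Co μ r (r.ρ x) h4 _ g).symm
      rw [hP, h5]
      exact Ei_mem μ r χ g x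
    rw [hSv, h3, map_smul, hSv]
    exact ((E.symm (P g)).2 x).symm
  · ext1 g
    change T (S g) = _
    rw [hSv, ← he, h2, hP]
  · ext1 g
    change S (T g) = _
    rw [hSv, hPT, h1, hP]

theorem solve_Co (F : C(G, ℂ))
    (hF : F ∈ Submodule.span ℂ (Set.range (ch : (G →ₜ* Circle) → C(G, ℂ)))) :
    ∃ S ∈ Comm r, T * S = Co μ r F ∧ S * T = Co μ r F := by
  induction hF using Submodule.span_induction with
  | mem x hx =>
    obtain ⟨χ, rfl⟩ := hx
    have h := solve_Ei μ r T hT c hc hS hS' χ⁻¹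
    unfold Ei at h
    rw [inv_inv] at h
    exact h
  | zero =>
    refine ⟨0, (Comm r).zero_mem, ?_⟩
    rw [mul_zero, zero_mul]
    have := Co_smul μ r 0 (0 : C(G, ℂ))
    rw [zero_smul, zero_smul] at this
    exact ⟨this.symm, this.symm⟩
  | add x y _ _ hx hy =>
    obtain ⟨S, hS1, hS2, hS3⟩ := hx
    obtain ⟨R, hR1, hR2, hR3⟩ := hy
    refine ⟨S + R, (Comm r).add_mem hS1 hR1, ?_, ?_⟩
    · rw [mul_add, hS2, hR2, Co_add]
    · rw [add_mul, hS3, hR3, Co_add]
  | smul a x _ hx =>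
    obtain ⟨S, hS1, hS2, hS3⟩ := hx
    refine ⟨a • S, (Comm r).smul_mem hS1 _, ?_, ?_⟩
    · rw [mul_smul_comm, hS2, Co_smul]
    · rw [smul_mul_assoc, hS3, Co_smul]

/-- `T` is bounded below -/
theorem bounded_below (f : X) : c * ‖f‖ ≤ r.M * ‖T f‖ := by
  have hM := M_nonneg r
  have key : ∀ ε : ℝ, 0 < ε →
      c * (‖f‖ - (ε + r.M * ε * ‖f‖)) ≤ r.M * (1 + ε) * ‖T f‖ := by
    intro ε hε
    obtain ⟨F, hF, hF1, hF2⟩ := approx μ r f ε hε
    obtain ⟨S, hSM, hTS, hST⟩ := solve_Co μ r T hT c hc hS hS' F hF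
    have hSn : c * ‖S‖ ≤ r.M * (1 + ε) := (hS S hSM).trans (by rw [hTS]; exact hF2)
    have hFf : ‖Co μ r F f‖ ≤ ‖S‖ * ‖T f‖ := by
      rw [← hST]
      exact S.le_opNorm (T f)
    have hlow : ‖f‖ - (ε + r.M * ε * ‖f‖) ≤ ‖Co μ r F f‖ := by
      have h1 : ‖f‖ ≤ ‖Co μ r F f‖ + ‖Co μ r F f - f‖ := by
        have := norm_sub_le (Co μ r F f) (Co μ r F f - f)
        rwa [sub_sub_cancel] at this
      linarith
    calc c * (‖f‖ - (ε + r.M * ε * ‖f‖)) ≤ c * ‖Co μ r F f‖ :=
          mul_le_mul_of_nonneg_left hlow hc.le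
      _ ≤ c * (‖S‖ * ‖T f‖) := mul_le_mul_of_nonneg_left hFf hc.le
      _ = (c * ‖S‖) * ‖T f‖ := by ring
      _ ≤ _ := mul_le_mul_of_nonneg_right hSn (norm_nonneg _)
  have h1 : Tendsto (fun ε : ℝ => c * (‖f‖ - (ε + r.M * ε * ‖f‖))) (𝓝[>] 0)
      (𝓝 (c * (‖f‖ - (0 + r.M * 0 * ‖f‖)))) := by
    apply Tendsto.mono_left _ nhdsWithin_le_nhds
    exact Continuous.tendsto (by fun_prop) 0
  have h2 : Tendsto (fun ε : ℝ => r.M * (1 + ε) * ‖T f‖) (𝓝[>] 0)
      (𝓝 (r.M * (1 + 0) * ‖T f‖)) := by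
    apply Tendsto.mono_left _ nhdsWithin_le_nhds
    exact Continuous.tendsto (by fun_prop) 0
  have h3 := le_of_tendsto_of_tendsto h1 h2 (by
    filter_upwards [self_mem_nhdsWithin] with ε hε
    exact key ε hε)
  simpa using h3

/-- the inverse -/
theorem exists_inverse : ∃ R ∈ Comm r, T * R = 1 ∧ R * T = 1 := by
  have hM := M_nonneg r
  have hM1 : 0 < r.M + 1 := by linarith
  have hb : ∀ f, c / (r.M + 1) * ‖f‖ ≤ ‖T f‖ := by
    intro f
    have h := bounded_below μ r T hT c hc hS hS' f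
    rw [div_mul_eq_mul_div, div_le_iff₀ hM1]
    nlinarith [norm_nonneg (T f)]
  have hc' : 0 < c / (r.M + 1) := div_pos hc hM1
  have hinj : Function.Injective T := by
    rw [injective_iff_map_eq_zero]
    intro f hf
    have h := hb f
    rw [hf, norm_zero] at h
    have h2 := norm_nonneg f
    have : ‖f‖ = 0 := by nlinarith
    exact norm_eq_zero.1 this
  have hanti : AntilipschitzWith (Real.toNNReal (c / (r.M + 1))⁻¹) T := by
    apply ContinuousLinearMap.antilipschitz_of_bound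
    intro f
    have h := hb f
    rw [Real.coe_toNNReal _ (inv_nonneg.2 hc'.le), inv_mul_eq_div, le_div_iff₀ hc', mul_comm]
    exact h
  have hcl : IsClosed (Set.range T) := hanti.isClosed_range T.uniformContinuous
  have hsur : Function.Surjective T := by
    intro v
    have hv : v ∈ closure (Set.range T) := by
      rw [Metric.mem_closure_iff]
      intro δ hδ
      have hpos : 0 < 1 + r.M * ‖v‖ := by
        have := mul_nonneg hM (norm_nonneg v)
        linarith
      obtain ⟨F, hF, hF1, -⟩ := approx μ r v (δ / 2 / (1 + r.M * ‖v‖)) (by positivity)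
      obtain ⟨S, hSM, hTS, -⟩ := solve_Co μ r T hT c hc hS hS' F hF
      refine ⟨Co μ r F v, ⟨S v, ?_⟩, ?_⟩
      · rw [← hTS]; rfl
      · rw [dist_comm, dist_eq_norm]
        refine lt_of_le_of_lt hF1 ?_
        have e : δ / 2 / (1 + r.M * ‖v‖) + r.M * (δ / 2 / (1 + r.M * ‖v‖)) * ‖v‖ = δ / 2 := by
          field_simp
        rw [e]
        linarith
    rw [hcl.closure_eq] at hv
    exact hv
  have hker : LinearMap.ker (T : X →ₗ[ℂ] X) = ⊥ := LinearMap.ker_eq_bot.2 hinj
  have hran : LinearMap.range (T : X →ₗ[ℂ] X) = ⊤ := LinearMap.range_eq_top.2 hsur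
  let e := ContinuousLinearEquiv.ofBijective T hker hran
  have h1 : ∀ g, e.symm (T g) = g := fun g =>
    ContinuousLinearEquiv.ofBijective_symm_apply_apply T hker hran g
  have h2 : ∀ g, T (e.symm g) = g := fun g =>
    ContinuousLinearEquiv.ofBijective_apply_symm_apply T hker hran g
  refine ⟨(e.symm : X →L[ℂ] X), ?_, ?_, ?_⟩
  · rw [mem_Comm]
    intro x g
    change e.symm (r.ρ x g) = r.ρ x (e.symm g)
    have h3 : T (r.ρ x (e.symm g)) = r.ρ x g := by
      rw [(mem_Comm r T).1 hT, h2]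
    rw [← h3, h1]
  · ext1 g
    exact h2 g
  · ext1 g
    exact h1 g

end bb

include μ in
/-- a noninvertible element of the commutant is a left or right topological divisor of zero -/
theorem exists_small (T : Comm r) (hT : ¬ IsUnit T) (c : ℝ) (hc : 0 < c) :
    ∃ S : Comm r, ‖S‖ = 1 ∧ (‖T * S‖ < c ∨ ‖S * T‖ < c) := by
  by_contra hcon
  push Not at hcon
  apply hT
  have hred : ∀ S ∈ Comm r, c * ‖S‖ ≤ ‖(T : X →L[ℂ] X) * S‖ ∧ c * ‖S‖ ≤ ‖S * (T : X →L[ℂ] X)‖ := by
    intro S hSM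
    by_cases h0 : S = 0
    · subst h0
      simp
    · have hn : 0 < ‖S‖ := norm_pos_iff.2 h0
      let S' : Comm r := ⟨((‖S‖⁻¹ : ℝ) : ℂ) • S, (Comm r).smul_mem hSM _⟩
      have h1 : ‖S'‖ = 1 := by
        change ‖((‖S‖⁻¹ : ℝ) : ℂ) • S‖ = 1
        rw [norm_smul, Complex.norm_real, Real.norm_eq_abs, abs_of_pos (inv_pos.2 hn),
          inv_mul_cancel₀ hn.ne']
      obtain ⟨h2, h2'⟩ := hcon S' h1
      have h3 : ‖T * S'‖ = ‖S‖⁻¹ * ‖(T : X →L[ℂ] X) * S‖ := by
        change ‖(T : X →L[ℂ] X) * (((‖S‖⁻¹ : ℝ) : ℂ) • S)‖ = _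
        rw [mul_smul_comm, norm_smul, Complex.norm_real, Real.norm_eq_abs,
          abs_of_pos (inv_pos.2 hn)]
      have h3' : ‖S' * T‖ = ‖S‖⁻¹ * ‖S * (T : X →L[ℂ] X)‖ := by
        change ‖(((‖S‖⁻¹ : ℝ) : ℂ) • S) * (T : X →L[ℂ] X)‖ = _
        rw [smul_mul_assoc, norm_smul, Complex.norm_real, Real.norm_eq_abs,
          abs_of_pos (inv_pos.2 hn)]
      rw [h3, inv_mul_eq_div, le_div_iff₀ hn] at h2
      rw [h3', inv_mul_eq_div, le_div_iff₀ hn] at h2'
      exact ⟨h2, h2'⟩
  obtain ⟨R, hR, h1, h2⟩ := exists_inverse μ r (T : X →L[ℂ] X) T.2 c hc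
    (fun S hS => (hred S hS).1) (fun S hS => (hred S hS).2)
  refine ⟨⟨T, ⟨R, hR⟩, Subtype.ext h1, Subtype.ext h2⟩, rfl⟩

include μ in
/-- spectral permanence -/
theorem spectral_permanence (B : Type w) [NormedRing B] [NormedAlgebra ℂ B]
    (j : Comm r →ₐ[ℂ] B) (hj : IsEmbedding j) (T : Comm r) :
    spectrum ℂ (j T) = spectrum ℂ T := by
  apply Set.Subset.antisymm
  · exact AlgHom.spectrum_apply_subset j T
  · intro z hz hu
    rw [spectrum.mem_iff] at hz
    set A : Comm r := algebraMap ℂ (Comm r) z - T with hA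
    choose S hS1 hS2 using fun n : ℕ =>
      exists_small μ r A hz (1 / ((n : ℝ) + 1)) (by positivity)
    rw [spectrum.mem_resolventSet_iff] at hu
    obtain ⟨b, hb⟩ := hu.exists_left_inv
    obtain ⟨b', hb'⟩ := hu.exists_right_inv
    have hjA : j A = algebraMap ℂ B z - j T := by rw [hA, map_sub, AlgHom.commutes]
    rw [← hjA] at hb hb'
    have hmin : Tendsto (fun n => min ‖A * S n‖ ‖S n * A‖) atTop (𝓝 0) := by
      refine squeeze_zero (fun n => le_min (norm_nonneg _) (norm_nonneg _)) (fun n => ?_)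
        tendsto_one_div_add_atTop_nhds_zero_nat
      rcases hS2 n with h | h
      · exact (min_le_left _ _).trans h.le
      · exact (min_le_right _ _).trans h.le
    -- choose the small product
    let Q : ℕ → Comm r := fun n => if ‖A * S n‖ ≤ ‖S n * A‖ then A * S n else S n * A
    have hQ : ∀ n, ‖Q n‖ = min ‖A * S n‖ ‖S n * A‖ := by
      intro n
      by_cases h : ‖A * S n‖ ≤ ‖S n * A‖
      · simp only [Q, if_pos h, min_eq_left h]
      · simp only [Q, if_neg h, min_eq_right (not_le.1 h).le]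
    have hQ0 : Tendsto Q atTop (𝓝 0) := by
      rw [tendsto_zero_iff_norm_tendsto_zero]
      exact hmin.congr (fun n => (hQ n).symm)
    have hjQ : Tendsto (fun n => j (Q n)) atTop (𝓝 0) := by
      have := (hj.continuous.tendsto 0).comp hQ0
      rwa [map_zero] at this
    have hle : ∀ n, ‖j (S n)‖ ≤ (‖b‖ + ‖b'‖) * ‖j (Q n)‖ := by
      intro n
      by_cases h : ‖A * S n‖ ≤ ‖S n * A‖
      · have h1 : j (S n) = b * j (Q n) := by
          simp only [Q, if_pos h]
          rw [map_mul, ← mul_assoc, hb, one_mul]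
        rw [h1]
        refine (norm_mul_le _ _).trans ?_
        have := norm_nonneg b'
        have := norm_nonneg (j (Q n))
        nlinarith
      · have h1 : j (S n) = j (Q n) * b' := by
          simp only [Q, if_neg h]
          rw [map_mul, mul_assoc, hb', mul_one]
        rw [h1]
        refine (norm_mul_le _ _).trans ?_
        have := norm_nonneg b
        have := norm_nonneg (j (Q n))
        nlinarith
    have hjS : Tendsto (fun n => j (S n)) atTop (𝓝 (j 0)) := by
      rw [map_zero, tendsto_zero_iff_norm_tendsto_zero]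
      refine squeeze_zero (fun n => norm_nonneg _) hle ?_
      have := hjQ.norm.const_mul (‖b‖ + ‖b'‖)
      rwa [norm_zero, mul_zero] at this
    have h5 : Tendsto S atTop (𝓝 0) := hj.tendsto_nhds_iff.2 hjS
    have h6 : Tendsto (fun n => ‖S n‖) atTop (𝓝 ‖(0 : Comm r)‖) := h5.norm
    have h7 : (fun n => ‖S n‖) = fun _ => (1 : ℝ) := funext hS1
    have h8 : ‖(0 : Comm r)‖ = 0 := by
      change ‖(0 : X →L[ℂ] X)‖ = 0
      exact norm_zero
    rw [h7, h8] at h6
    exact one_ne_zero (tendsto_nhds_unique tendsto_const_nhds h6)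

end

end Pool.Agent.Y251.RP
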